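import Pool.Agent.MNW.StmtsT

/-!
# Squad MNW, row OLD: genus 2, 13 points
-/

set_option autoImplicit false

namespace Pool.Agent.MNW.H60

open Pool.Agent.MNT

theorem w0_old (a b : ℕ) : Pool.Agent.MNW.w0 2 13 6 a b = Pool.Agent.MNU.u0 2 a b := by
  unfold Pool.Agent.MNW.w0 Pool.Agent.MNU.u0 Pool.Agent.MNW.gm Pool.Agent.MNU.gm
  norm_num

theorem old (h : Pool.Agent.MNU.TrxStmt) : Pool.Agent.MNW.OldStmt where
  g_ge := le_rfl
  m_ge := by norm_num
  m_le := le_rfl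
  A_nn := by norm_num
  A_le := by norm_num
  tree := by
    intro P _ _ R hR hP Λ
    obtain ⟨μ, hμ, hle⟩ := h 2 le_rfl P R hR (by rw [hP]) Λ
    refine ⟨μ, hμ, ?_⟩
    have h6 : (3 : ℝ) * ((2 : ℕ) : ℝ) = 6 := by norm_num
    rw [h6] at hle
    refine hle.trans (le_of_eq ?_)
    refine Finset.sum_congr rfl fun d _ => ?_
    rw [w0_old]

end Pool.Agent.MNW.H60
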